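import Pool.Agent.SDL.Assembly

set_option autoImplicit false

/-!
# The soft dodecahedral inequality for all lattice packings

MP_8c4407_co asks whether, for every `λ > 0`, the part of a Voronoi cell of a packing of unit balls
which is within distance `1 + λ` of the centre is at most the same part of the regular dodecahedron
of inradius one. We prove this, for every `λ ≥ 0`, for every lattice packing. The cells of a lattice
can have fourteen faces.

Proof (in `Pool/Agent/SDL`). The cell is determined by the fourteen sums of an obtuse superbase
(Selling). The sum of the weights `6 - (30/π) arctan (|v|/(2 √3))` of these fourteen vectors is at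
most twelve, since the seven squared lengths satisfy a linear relation. The theorem for weighted
neighbours (see `WeightedNeighbours.lean`) applies.
-/

namespace Pool.Agent.Results.MP_8c4407_co.LatticePackings

open MeasureTheory

/-- The Euclidean space. -/
abbrev E3 : Type := EuclideanSpace ℝ (Fin 3)

/-- The regular dodecahedron of inradius one with centre zero. -/
def dodecahedron : Set E3 :=
  {x | |x 1| + Real.goldenRatio * |x 2| ≤ Real.sqrt (1 + Real.goldenRatio ^ 2) ∧
    |x 0| + Real.goldenRatio * |x 1| ≤ Real.sqrt (1 + Real.goldenRatio ^ 2) ∧
    Real.goldenRatio * |x 0| + |x 2| ≤ Real.sqrt (1 + Real.goldenRatio ^ 2)}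

/-- The Voronoi cell of `c`. -/
def cell (X : Set E3) (c : E3) : Set E3 := {x | ∀ y ∈ X, dist x c ≤ dist x y}

/-- Let `L` be an additive group of vectors (of any rank) with all nonzero vectors of length at
least two, and `X = a + L`. For every centre `c` in `X` and every `l ≥ 0` the part of the cell of
`c` within distance `1 + l` of `c` is at most the same part of the dodecahedron. -/
theorem result :
    ∀ L : AddSubgroup E3, (∀ v ∈ L, v ≠ 0 → (2 : ℝ) ≤ ‖v‖) →
      ∀ a c : E3, c - a ∈ L → ∀ l : ℝ, 0 ≤ l →
        volume (cell {x | x - a ∈ L} c ∩ Metric.closedBall c (1 + l)) /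
            volume (cell {x | x - a ∈ L} c) ≤
          volume (dodecahedron ∩ Metric.closedBall 0 (1 + l)) / volume dodecahedron := by
  intro L hL a c hc l hl
  exact Pool.Agent.SDL.tLAT L hL a c hc l hl

end Pool.Agent.Results.MP_8c4407_co.LatticePackings
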