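import Pool.Agent.SDL.Assembly

set_option autoImplicit false

/-!
# The soft dodecahedral inequality for cells with weighted neighbour sum at most twelve

MP_8c4407_co asks whether, for every `λ > 0`, the part of a Voronoi cell of a packing of unit balls
which is within distance `1 + λ` of the centre is at most the same part of the regular dodecahedron
of inradius one. We prove this, for every `λ ≥ 0`, for every centre `c` for which the sum of the
weights of the other centres is at most twelve. The weight of a centre at distance `d` is
`6 - (30/π) arctan (d/(2 √3))`. It decreases from `1` for `d = 2` to `0` for `d = 2 ρ = 2.516...`,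
`ρ` the circumradius of the dodecahedron, and it is at most Hales' `L (d/2) = (1.26 - d/2)/0.26`.
Examples are all centres with at most twelve other centres at distance less than `2 ρ`, and all
centres of lattice packings (a separate file), whose cells can have fourteen faces. More generally
only the weights of the centres which determine the cell near `c` are needed. The number of faces
and the volume of the cell are arbitrary.
Neither the dodecahedral theorem of Hales and McLaughlin nor Hales' inequality that the sum of
`L (d/2)` is at most twelve in every packing is used.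

Proof (all in `Pool/Agent/SDL` and `Pool/Agent/SDC`, see the `Blueprint.md` there). Let `t = 1 + λ`,
`κ` the part of the dodecahedron outside of `B_t`. We add a multiple `β` of the solid angle as a
Lagrange multiplier, which reduces the inequality to a bound for the integral of an explicit radial
function over one facet at distance `h` from `c`: it is at least `- (π/3) β w (h)`, where `w (h)` is
the weight. For facets with at most five sides near `c` the best facet is the regular pentagon
inscribed in a ball of radius `u (h)`. For facets with at least six sides near `c` the packing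
condition bounds the sides by an argument with disjoint arcs of a circle.
-/

namespace Pool.Agent.Results.MP_8c4407_co.WeightedNeighbours

open MeasureTheory

/-- The Euclidean space. -/
abbrev E3 : Type := EuclideanSpace ℝ (Fin 3)

/-- The regular dodecahedron of inradius one with centre zero. -/
def dodecahedron : Set E3 :=
  {x | |x 1| + Real.goldenRatio * |x 2| ≤ Real.sqrt (1 + Real.goldenRatio ^ 2) ∧
    |x 0| + Real.goldenRatio * |x 1| ≤ Real.sqrt (1 + Real.goldenRatio ^ 2) ∧
    Real.goldenRatio * |x 0| + |x 2| ≤ Real.sqrt (1 + Real.goldenRatio ^ 2)}

/-- The circumradius of the dodecahedron, `1.258...`. -/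
noncomputable def circumradius : ℝ := Real.sqrt (15 - 6 * Real.sqrt 5)

/-- The weight of a centre at distance `d`. -/
noncomputable def weight (d : ℝ) : ℝ := 6 - 30 / Real.pi * Real.arctan (d / (2 * Real.sqrt 3))

/-- The Voronoi cell of `c`. -/
def cell (X : Set E3) (c : E3) : Set E3 := {x | ∀ y ∈ X, dist x c ≤ dist x y}

/-- The set `S` of centres different from `c` determines the cell of `c` inside the ball of
radius `r` with centre `c`. -/
def Determines (X : Set E3) (c : E3) (r : ℝ) (S : Finset E3) : Prop :=
  (∀ y ∈ S, y ∈ X) ∧ c ∉ S ∧
    ∀ x, dist x c ≤ r → (∀ y ∈ S, dist x c ≤ dist x y) → x ∈ cell X c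

/-- Let `X` be the set of the centres of a packing of unit balls, and `c` in `X`. Suppose that

* every finite set of other centres at distance less than `2 * circumradius` from `c` has weight sum
  at most twelve, or
* every finite set of other centres at distance at most `2.52` from `c` has the sum of the numbers
  `L (d/2) = (1.26 - d/2)/0.26` at most twelve, or
* a finite set of other centres with the sum of the positive weights at most twelve determines the
  cell inside the ball of radius `√(13/8)`, or
* a set of at most twelve other centres determines the cell inside the ball of radius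
  `circumradius`.

Then for every `l ≥ 0` the part of the cell within distance `1 + l` of `c` is at most the same part
of the dodecahedron. -/
theorem result :
    ∀ X : Set E3, (∀ x ∈ X, ∀ y ∈ X, x ≠ y → (2 : ℝ) ≤ dist x y) → ∀ c ∈ X,
      ((∀ S : Finset E3, (∀ y ∈ S, y ∈ X ∧ y ≠ c ∧ dist y c < 2 * circumradius) →
          ∑ y ∈ S, weight (dist y c) ≤ 12) ∨
        (∀ S : Finset E3, (∀ y ∈ S, y ∈ X ∧ y ≠ c ∧ dist y c ≤ 2.52) →
          ∑ y ∈ S, (1.26 - dist y c / 2) / 0.26 ≤ 12) ∨
        (∃ S : Finset E3, Determines X c (Real.sqrt (13 / 8)) S ∧
          ∑ y ∈ S, max (weight (dist y c)) 0 ≤ 12) ∨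
        ∃ S : Finset E3, Determines X c circumradius S ∧ S.card ≤ 12) →
      ∀ l : ℝ, 0 ≤ l →
        volume (cell X c ∩ Metric.closedBall c (1 + l)) / volume (cell X c) ≤
          volume (dodecahedron ∩ Metric.closedBall 0 (1 + l)) / volume dodecahedron := by
  intro X hX c hc h l hl
  have hw : ∀ d : ℝ, weight d = Pool.Agent.SDL.wt (d / 2) := by
    intro d
    unfold weight Pool.Agent.SDL.wt
    rw [div_div]
  have hR : circumradius = Pool.Agent.SDC.R := rfl
  rcases h with h | h | ⟨S, ⟨h1, h2, h3⟩, h4⟩ | ⟨S, ⟨h1, h2, h3⟩, h4⟩
  · refine Pool.Agent.SDL.tNW X hX c hc (fun S hS => ?_) l hl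
    have h5 := h S hS
    simpa only [hw] using h5
  · refine Pool.Agent.SDL.tNW X hX c hc (fun S hS => ?_) l hl
    have hRhi : 2 * Pool.Agent.SDC.R ≤ 2.52 := by
      linarith [Pool.Agent.SDL.R_hi']
    refine le_trans (Finset.sum_le_sum fun y hy => ?_)
      (h S fun y hy => ⟨(hS y hy).1, (hS y hy).2.1, (hS y hy).2.2.le.trans hRhi⟩)
    obtain ⟨hyX, hyc, hd⟩ := hS y hy
    have h6 : (2 : ℝ) ≤ dist y c := hX y hyX c hc hyc
    exact Pool.Agent.SDL.tWT.2.2.2.2.2.1 (dist y c / 2) (by linarith) (by linarith)
  · refine Pool.Agent.SDL.tVX X hX c hc S h1 h2 ?_ h3 l hl
    simpa only [hw] using h4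
  · exact Pool.Agent.SDC.vor X hX c hc (↑S : Set E3) (fun y hy => h1 y hy) (by simpa using h2)
      S.finite_toSet (by rw [Set.ncard_coe_finset]; exact h4) (fun x hx hy => h3 x hx hy) l hl

end Pool.Agent.Results.MP_8c4407_co.WeightedNeighbours
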